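import Mathlib

/-!
# The number of MDS codes of minimum distance two

`N q n` is the number of codes in `Q ^ n`, `Q = Fin q`, with `q ^ (n - 1)` words and minimum
distance at least two. We prove `log N q n ≤ (q - 1) (q / 2) ^ (n - 1)` (logarithm to base two) for
all `q`, and deduce that for even `q` the limit of `log log N q n / n` is `log (q / 2)`.
-/

namespace Pool.Agent.Results.MP_85f59e_co.EvenOrder

open Finset Filter Topology

/-- `C` is a code of type `(n, q ^ (n - 1), 2)`, that is, an MDS code of minimum distance two. -/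
def IsMDS (q n : ℕ) (C : Finset (Fin n → Fin q)) : Prop :=
  C.card = q ^ (n - 1) ∧ ∀ x ∈ C, ∀ y ∈ C, x ≠ y → 2 ≤ hammingDist x y

/-- The number of such codes. -/
noncomputable def N (q n : ℕ) : ℕ := Nat.card {C : Finset (Fin n → Fin q) // IsMDS q n C}

section Seq

variable {V : Type} [Fintype V] [DecidableEq V]

/-- filling the cells one after the other -/
theorem seq_fill (m : ℕ) (S : (Fin m → V) → Fin m → Finset V)
    (hS : ∀ f g k, (∀ j, j < k → f j = g j) → S f k = S g k) :
    ∑ f : Fin m → V, ∏ k, (if f k ∈ S f k then (1 : ℝ) / (S f k).card else 0) ≤ 1 := by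
  induction m with
  | zero => simp
  | succ m ih =>
    have h0 : ∀ (v : V) (g : Fin m → V) (v' : V) (g' : Fin m → V),
        S (Fin.cons v g) 0 = S (Fin.cons v' g') 0 := by
      intro v g v' g'
      exact hS _ _ 0 fun j hj => absurd hj (Fin.not_lt_zero j)
    rw [← Fintype.sum_equiv (Fin.consEquiv (fun _ : Fin (m + 1) => V))
      (fun p => ∏ k, (if (Fin.cons p.1 p.2 : Fin (m + 1) → V) k ∈ S (Fin.cons p.1 p.2) k then
        (1 : ℝ) / (S (Fin.cons p.1 p.2) k).card else 0)) _ (fun p => rfl), Fintype.sum_prod_type]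
    rcases isEmpty_or_nonempty V with hV | ⟨⟨v0⟩⟩
    · simp
    · have key : ∀ v : V, ∑ g : Fin m → V, ∏ k, (if (Fin.cons v g : Fin (m + 1) → V) k ∈
          S (Fin.cons v g) k then (1 : ℝ) / (S (Fin.cons v g) k).card else 0) ≤
          if v ∈ S (fun _ => v0) 0 then (1 : ℝ) / (S (fun _ => v0) 0).card else 0 := by
        intro v
        have h1 : ∀ g : Fin m → V, S (Fin.cons v g) 0 = S (fun _ => v0) 0 := fun g =>
          hS _ _ 0 fun j hj => absurd hj (Fin.not_lt_zero j)
        have h2 : ∀ g : Fin m → V, (∏ k, (if (Fin.cons v g : Fin (m + 1) → V) k ∈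
            S (Fin.cons v g) k then (1 : ℝ) / (S (Fin.cons v g) k).card else 0)) =
            (if v ∈ S (fun _ => v0) 0 then (1 : ℝ) / (S (fun _ => v0) 0).card else 0) *
            ∏ k : Fin m, (if g k ∈ S (Fin.cons v g) k.succ then
              (1 : ℝ) / (S (Fin.cons v g) k.succ).card else 0) := by
          intro g
          rw [Fin.prod_univ_succ, Fin.cons_zero, h1]
          simp only [Fin.cons_succ]
        rw [Finset.sum_congr rfl fun g _ => h2 g, ← Finset.mul_sum]
        have h3 := ih (fun g k => S (Fin.cons v g) k.succ) (by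
          intro f g k h
          refine hS _ _ _ fun j hj => ?_
          refine Fin.cases ?_ (fun j hj => ?_) j hj
          · intro _; simp
          · rw [Fin.cons_succ, Fin.cons_succ]
            exact h j (Fin.succ_lt_succ_iff.1 hj))
        refine mul_le_of_le_one_right ?_ h3
        split_ifs <;> positivity
      refine (Finset.sum_le_sum fun v _ => key v).trans ?_
      rw [← Finset.sum_filter, Finset.sum_const, nsmul_eq_mul]
      have h4 : (univ.filter fun v => v ∈ S (fun _ => v0) 0) = S (fun _ => v0) 0 := by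
        ext v; simp
      rw [h4]
      rcases Nat.eq_zero_or_pos (S (fun _ => v0) 0).card with h | h
      · rw [h]; simp
      · rw [mul_one_div_cancel]
        positivity

theorem seq_fill' {X : Type} [Fintype X] [DecidableEq X] (m : ℕ) (e : X ≃ Fin m)
    (S : (X → V) → X → Finset V)
    (hS : ∀ f g x, (∀ y, e y < e x → f y = g y) → S f x = S g x) :
    ∑ f : X → V, ∏ x, (if f x ∈ S f x then (1 : ℝ) / (S f x).card else 0) ≤ 1 := by
  have h := seq_fill m (fun f k => S (fun x => f (e x)) (e.symm k)) (by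
    intro f g k hfg
    refine hS _ _ _ fun y hy => ?_
    rw [Equiv.apply_symm_apply] at hy
    exact hfg _ hy)
  refine le_trans (le_of_eq ?_) h
  refine Fintype.sum_equiv (Equiv.arrowCongr e (Equiv.refl V)) _ _ fun f => ?_
  rw [← Equiv.prod_comp e.symm]
  refine Finset.prod_congr rfl fun k _ => ?_
  have h1 : (fun x => (Equiv.arrowCongr e (Equiv.refl V)) f (e x)) = f := by
    funext x
    simp [Equiv.arrowCongr]
  rw [h1]
  simp [Equiv.arrowCongr]

end Seq

section Latin

variable {q n : ℕ}

/-- Latin hypercubes -/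
def IsLatin (f : (Fin n → Fin q) → Fin q) : Prop :=
  ∀ (x : Fin n → Fin q) (i : Fin n), Function.Injective fun y => f (Function.update x i y)

/-- `y` precedes `z` in the increasing or in the decreasing order -/
def Ear (b : Bool) (y z : Fin q) : Prop := if b = true then y < z else z < y

instance (b : Bool) (y z : Fin q) : Decidable (Ear b y z) := by unfold Ear; infer_instance

/-- the values which are not excluded at the cell `x` by the preceding cells of its lines -/
def Av (ε : Fin n → Bool) (f : (Fin n → Fin q) → Fin q) (x : Fin n → Fin q) : Finset (Fin q) :=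
  univ.filter fun v => ∀ i, ∀ y, Ear (ε i) y (x i) → f (Function.update x i y) ≠ v

theorem mem_Av_self (ε : Fin n → Bool) {f : (Fin n → Fin q) → Fin q} (hf : IsLatin f)
    (x : Fin n → Fin q) : f x ∈ Av ε f x := by
  rw [Av, mem_filter]
  refine ⟨mem_univ _, fun i y hy h => ?_⟩
  have h1 : y = x i := by
    apply hf x i
    simp only [h, Function.update_eq_self]
  subst h1
  unfold Ear at hy
  split_ifs at hy <;> exact lt_irrefl _ hy

/-- reversing some of the coordinates -/
def flip (ε : Fin n → Bool) : (Fin n → Fin q) ≃ (Fin n → Fin q) where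
  toFun x := fun i => if ε i = true then x i else (x i).rev
  invFun x := fun i => if ε i = true then x i else (x i).rev
  left_inv x := by
    funext i
    by_cases h : ε i = true <;> simp [h]
  right_inv x := by
    funext i
    by_cases h : ε i = true <;> simp [h]

/-- the position of a cell -/
def pos (ε : Fin n → Bool) : (Fin n → Fin q) ≃ Fin (q ^ n) := (flip ε).trans finFunctionFinEquiv

theorem pos_lt (ε : Fin n → Bool) (x : Fin n → Fin q) (i : Fin n) (y : Fin q)
    (h : Ear (ε i) y (x i)) : pos ε (Function.update x i y) < pos ε x := by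
  have hq : 0 < q := (x i).pos
  rw [pos, Equiv.trans_apply, Equiv.trans_apply, Fin.lt_def, finFunctionFinEquiv_apply,
    finFunctionFinEquiv_apply]
  refine Finset.sum_lt_sum (fun j _ => ?_) ⟨i, mem_univ _, ?_⟩
  · refine Nat.mul_le_mul_right _ ?_
    by_cases hj : j = i
    · subst hj
      simp only [flip, Equiv.coe_fn_mk, Function.update_self]
      unfold Ear at h
      split_ifs at h ⊢ with hb
      · exact h.le
      · exact (Fin.rev_lt_rev.2 h).le
    · simp only [flip, Equiv.coe_fn_mk, Function.update_of_ne hj, le_refl]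
  · refine Nat.mul_lt_mul_of_pos_right ?_ (pow_pos hq _)
    simp only [flip, Equiv.coe_fn_mk, Function.update_self]
    unfold Ear at h
    split_ifs at h ⊢ with hb
    · exact h
    · exact Fin.rev_lt_rev.2 h

theorem Av_congr (ε : Fin n → Bool) (f g : (Fin n → Fin q) → Fin q) (x : Fin n → Fin q)
    (h : ∀ y, pos ε y < pos ε x → f y = g y) : Av ε f x = Av ε g x := by
  unfold Av
  refine Finset.filter_congr fun v _ => ?_
  refine forall_congr' fun i => forall_congr' fun y => ?_
  refine ⟨fun h1 h2 => ?_, fun h1 h2 => ?_⟩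
  · rw [← h _ (pos_lt ε x i y h2)]; exact h1 h2
  · rw [h _ (pos_lt ε x i y h2)]; exact h1 h2

/-- a value different from `f x` is not excluded for at most one of the orders -/
theorem unique_order {f : (Fin n → Fin q) → Fin q} (hf : IsLatin f) (x : Fin n → Fin q)
    {v : Fin q} (hv : v ≠ f x) {ε ε' : Fin n → Bool} (h : v ∈ Av ε f x) (h' : v ∈ Av ε' f x) :
    ε = ε' := by
  funext i
  have hsurj : Function.Surjective fun y => f (Function.update x i y) :=
    Finite.injective_iff_surjective.1 (hf x i)
  obtain ⟨y, hy⟩ := hsurj v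
  simp only at hy
  rw [Av, mem_filter] at h h'
  have h1 := fun hc => h.2 i y hc hy
  have h2 := fun hc => h'.2 i y hc hy
  have hne : y ≠ x i := by
    rintro rfl
    rw [Function.update_eq_self] at hy
    exact hv hy.symm
  unfold Ear at h1 h2
  rcases lt_or_gt_of_ne hne with hlt | hlt
  · have e1 : ε i ≠ true := fun hb => h1 (by rw [if_pos hb]; exact hlt)
    have e2 : ε' i ≠ true := fun hb => h2 (by rw [if_pos hb]; exact hlt)
    rw [Bool.eq_false_iff.2 e1, Bool.eq_false_iff.2 e2]
  · have e1 : ¬ ¬ ε i = true := fun hb => h1 (by rw [if_neg hb]; exact hlt)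
    have e2 : ¬ ¬ ε' i = true := fun hb => h2 (by rw [if_neg hb]; exact hlt)
    rw [not_not] at e1 e2
    rw [e1, e2]

theorem sum_Av {f : (Fin n → Fin q) → Fin q} (hf : IsLatin f) (x : Fin n → Fin q) :
    ∑ ε : Fin n → Bool, ((Av ε f x).card : ℝ) ≤ 2 ^ n + (q - 1) := by
  have h1 : ∑ ε : Fin n → Bool, (Av ε f x).card =
      ∑ v : Fin q, (univ.filter fun ε : Fin n → Bool => v ∈ Av ε f x).card := by
    simp_rw [Finset.card_filter]
    rw [Finset.sum_comm]
    refine Finset.sum_congr rfl fun ε _ => ?_
    rw [← Finset.card_filter]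
    congr 1
    ext v; simp
  have h2 : ∑ v : Fin q, (univ.filter fun ε : Fin n → Bool => v ∈ Av ε f x).card ≤
      2 ^ n + (q - 1) := by
    rw [← Finset.add_sum_erase univ _ (mem_univ (f x))]
    refine Nat.add_le_add ?_ ?_
    · refine (card_le_univ _).trans (le_of_eq ?_)
      simp
    · have h3 : ∀ v ∈ univ.erase (f x),
          (univ.filter fun ε : Fin n → Bool => v ∈ Av ε f x).card ≤ 1 := by
        intro v hv
        rw [Finset.card_le_one]
        intro ε hε ε' hε'
        exact unique_order hf x (ne_of_mem_erase hv) (mem_filter.1 hε).2 (mem_filter.1 hε').2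
      refine (Finset.sum_le_sum h3).trans (le_of_eq ?_)
      rw [Finset.sum_const, card_erase_of_mem (mem_univ _), card_univ, Fintype.card_fin, smul_eq_mul,
        mul_one]
  have hq : 1 ≤ q := (f x).pos
  have h4 := h1.le.trans h2
  have h5 : ((∑ ε : Fin n → Bool, (Av ε f x).card : ℕ) : ℝ) ≤ ((2 ^ n + (q - 1) : ℕ) : ℝ) := by
    exact_mod_cast h4
  push_cast [Nat.cast_sub hq] at h5
  exact h5

open Classical in
/-- the set of the Latin hypercubes -/
noncomputable def Lat (q n : ℕ) : Finset ((Fin n → Fin q) → Fin q) := univ.filter IsLatin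

theorem mem_Lat {f : (Fin n → Fin q) → Fin q} : f ∈ Lat q n ↔ IsLatin f := by
  classical
  simp [Lat]

/-- **the bound for the number of Latin hypercubes** -/
theorem card_Lat_le (q n : ℕ) :
    ((Lat q n).card : ℝ) ≤ Real.exp (Real.log 2 * ((q - 1) * (q / 2) ^ n)) := by
  set E : ℝ := (q - 1) * (q / 2) ^ n with hE
  set w : (Fin n → Bool) → ((Fin n → Fin q) → Fin q) → ℝ := fun ε f =>
    ∏ x, (if f x ∈ Av ε f x then (1 : ℝ) / (Av ε f x).card else 0) with hw
  have hw0 : ∀ ε f, 0 ≤ w ε f := by
    intro ε f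
    refine Finset.prod_nonneg fun x _ => ?_
    split_ifs <;> positivity
  -- every order contributes at most one
  have h1 : ∀ ε, ∑ f ∈ Lat q n, w ε f ≤ 1 := by
    intro ε
    refine le_trans (Finset.sum_le_sum_of_subset_of_nonneg (subset_univ _) fun f _ _ => hw0 ε f) ?_
    exact seq_fill' (q ^ n) (pos ε) (Av ε) (fun f g x h => Av_congr ε f g x h)
  -- lower bound of the mean over the orders
  have h2 : ∀ f ∈ Lat q n, Real.exp (-(Real.log 2 * E)) ≤ ∑ ε, (1 / 2 ^ n : ℝ) * w ε f := by
    intro f hf
    have hL : IsLatin f := mem_Lat.1 hf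
    have h3 : ∀ ε, Real.exp (-(Real.log 2 * ∑ x, (((Av ε f x).card : ℝ) - 1))) ≤ w ε f := by
      intro ε
      rw [Finset.mul_sum, ← Finset.sum_neg_distrib, Real.exp_sum]
      refine Finset.prod_le_prod (fun x _ => (Real.exp_pos _).le) fun x _ => ?_
      rw [if_pos (mem_Av_self ε hL x)]
      have hpos : 1 ≤ (Av ε f x).card := Finset.card_pos.2 ⟨_, mem_Av_self ε hL x⟩
      obtain ⟨k, hk⟩ := Nat.exists_eq_add_of_le' hpos
      rw [hk]
      push_cast
      rw [add_sub_cancel_right, Real.exp_neg, one_div]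
      refine inv_anti₀ (by positivity) ?_
      have h4 : Real.exp (Real.log 2 * k) = 2 ^ k := by
        rw [mul_comm, Real.exp_nat_mul, Real.exp_log (by norm_num)]
      rw [h4]
      exact_mod_cast Nat.lt_two_pow_self
    have h5 : Real.exp (∑ ε : Fin n → Bool, (1 / 2 ^ n : ℝ) •
        (-(Real.log 2 * ∑ x, (((Av ε f x).card : ℝ) - 1)))) ≤
        ∑ ε : Fin n → Bool, (1 / 2 ^ n : ℝ) •
          Real.exp (-(Real.log 2 * ∑ x, (((Av ε f x).card : ℝ) - 1))) := by
      refine convexOn_exp.map_sum_le (fun _ _ => by positivity) ?_ (fun _ _ => Set.mem_univ _)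
      rw [Finset.sum_const, card_univ, nsmul_eq_mul]
      simp
    have h6 : Real.exp (-(Real.log 2 * E)) ≤ Real.exp (∑ ε : Fin n → Bool, (1 / 2 ^ n : ℝ) •
        (-(Real.log 2 * ∑ x, (((Av ε f x).card : ℝ) - 1)))) := by
      rw [Real.exp_le_exp]
      have h7 : ∑ ε : Fin n → Bool, (1 / 2 ^ n : ℝ) •
          (-(Real.log 2 * ∑ x, (((Av ε f x).card : ℝ) - 1))) =
          -(Real.log 2 * (1 / 2 ^ n * ∑ x, ∑ ε : Fin n → Bool, (((Av ε f x).card : ℝ) - 1))) := by
        rw [Finset.sum_comm]
        simp only [smul_eq_mul, Finset.mul_sum, ← Finset.sum_neg_distrib]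
        refine Finset.sum_congr rfl fun ε _ => Finset.sum_congr rfl fun x _ => ?_
        ring
      rw [h7]
      have hlog : 0 ≤ Real.log 2 := Real.log_nonneg (by norm_num)
      have h8 : 1 / 2 ^ n * ∑ x, ∑ ε : Fin n → Bool, (((Av ε f x).card : ℝ) - 1) ≤ E := by
        have h9 : ∀ x : Fin n → Fin q, ∑ ε : Fin n → Bool, (((Av ε f x).card : ℝ) - 1) ≤ q - 1 := by
          intro x
          rw [Finset.sum_sub_distrib]
          have := sum_Av hL x
          simp only [Finset.sum_const, card_univ, Fintype.card_pi, Fintype.card_bool,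
            Finset.prod_const, Fintype.card_fin, nsmul_eq_mul, mul_one] at this ⊢
          push_cast
          linarith
        have h10 : ∑ x, ∑ ε : Fin n → Bool, (((Av ε f x).card : ℝ) - 1) ≤ q ^ n * (q - 1) := by
          refine (Finset.sum_le_sum fun x _ => h9 x).trans (le_of_eq ?_)
          rw [Finset.sum_const, card_univ, Fintype.card_pi, Finset.prod_const, Fintype.card_fin,
            card_univ, Fintype.card_fin, nsmul_eq_mul]
          push_cast
          ring
        rw [hE, div_pow]
        rw [one_div, inv_mul_le_iff₀ (by positivity)]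
        refine h10.trans (le_of_eq ?_)
        field_simp
      nlinarith [mul_le_mul_of_nonneg_left h8 hlog]
    refine h6.trans (h5.trans ?_)
    refine Finset.sum_le_sum fun ε _ => ?_
    rw [smul_eq_mul]
    exact mul_le_mul_of_nonneg_left (h3 ε) (by positivity)
  have h11 : ((Lat q n).card : ℝ) * Real.exp (-(Real.log 2 * E)) ≤ 1 := by
    rw [← nsmul_eq_mul, ← Finset.sum_const]
    refine (Finset.sum_le_sum h2).trans ?_
    rw [Finset.sum_comm]
    simp_rw [← Finset.mul_sum]
    have h12 : ∑ ε : Fin n → Bool, ∑ f ∈ Lat q n, w ε f ≤ 2 ^ n := by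
      refine (Finset.sum_le_sum fun ε _ => h1 ε).trans (le_of_eq ?_)
      simp
    rw [one_div, inv_mul_le_iff₀ (by positivity), mul_one]
    exact h12
  rw [Real.exp_neg, ← div_eq_mul_inv, div_le_one (Real.exp_pos _)] at h11
  exact h11

end Latin

section Codes

variable {q n : ℕ}

/-- the graph of a Latin hypercube -/
def graph (f : (Fin n → Fin q) → Fin q) : Finset (Fin (n + 1) → Fin q) :=
  univ.image fun x : Fin n → Fin q => (Fin.snoc x (f x) : Fin (n + 1) → Fin q)

theorem mem_graph (f : (Fin n → Fin q) → Fin q) (x : Fin n → Fin q) (v : Fin q) :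
    (Fin.snoc x v : Fin (n + 1) → Fin q) ∈ graph f ↔ f x = v := by
  rw [graph, mem_image]
  constructor
  · rintro ⟨y, -, hy⟩
    rw [Fin.snoc_inj] at hy
    rw [← hy.1, hy.2]
  · rintro rfl
    exact ⟨x, mem_univ _, rfl⟩

theorem card_graph (f : (Fin n → Fin q) → Fin q) : (graph f).card = q ^ n := by
  rw [graph, card_image_of_injective]
  · simp
  · intro x y h
    exact (Fin.snoc_inj.1 h).1

theorem graph_isMDS {f : (Fin n → Fin q) → Fin q} (hf : IsLatin f) : IsMDS q (n + 1) (graph f) := by
  refine ⟨by rw [card_graph]; rfl, ?_⟩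
  intro u hu v hv huv
  rw [graph, mem_image] at hu hv
  obtain ⟨x, -, rfl⟩ := hu
  obtain ⟨y, -, rfl⟩ := hv
  by_contra hcon
  have h1 : (univ.filter fun i => (Fin.snoc x (f x) : Fin (n + 1) → Fin q) i ≠
      (Fin.snoc y (f y) : Fin (n + 1) → Fin q) i).card ≤ 1 := by
    have : hammingDist (Fin.snoc x (f x) : Fin (n + 1) → Fin q) (Fin.snoc y (f y)) ≤ 1 := by omega
    exact this
  rw [Finset.card_le_one] at h1
  have hxy : x ≠ y := by
    rintro rfl
    exact huv rfl
  obtain ⟨i, hi⟩ : ∃ i, x i ≠ y i := by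
    by_contra hc
    push Not at hc
    exact hxy (funext hc)
  have hi' : Fin.castSucc i ∈ univ.filter fun i => (Fin.snoc x (f x) : Fin (n + 1) → Fin q) i ≠
      (Fin.snoc y (f y) : Fin (n + 1) → Fin q) i := by
    rw [mem_filter]
    refine ⟨mem_univ _, ?_⟩
    rw [Fin.snoc_castSucc, Fin.snoc_castSucc]
    exact hi
  have hf2 : f x = f y := by
    by_contra hne
    have h2 : Fin.last n ∈ univ.filter fun i => (Fin.snoc x (f x) : Fin (n + 1) → Fin q) i ≠
        (Fin.snoc y (f y) : Fin (n + 1) → Fin q) i := by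
      rw [mem_filter]
      refine ⟨mem_univ _, ?_⟩
      rw [Fin.snoc_last, Fin.snoc_last]
      exact hne
    exact absurd (h1 _ h2 _ hi') (Fin.castSucc_ne_last i).symm
  have hup : y = Function.update x i (y i) := by
    funext j
    by_cases hj : j = i
    · subst hj
      rw [Function.update_self]
    · rw [Function.update_of_ne hj]
      by_contra hne
      have h2 : Fin.castSucc j ∈ univ.filter fun i => (Fin.snoc x (f x) : Fin (n + 1) → Fin q) i ≠
          (Fin.snoc y (f y) : Fin (n + 1) → Fin q) i := by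
        rw [mem_filter]
        refine ⟨mem_univ _, ?_⟩
        rw [Fin.snoc_castSucc, Fin.snoc_castSucc]
        exact fun h => hne h.symm
      exact hj (Fin.castSucc_injective _ (h1 _ h2 _ hi'))
  apply hi
  apply hf x i
  simp only [Function.update_eq_self]
  rw [← hup, hf2]

/-- every code is the graph of a Latin hypercube -/
theorem exists_graph {C : Finset (Fin (n + 1) → Fin q)} (hC : IsMDS q (n + 1) C) :
    ∃ f : (Fin n → Fin q) → Fin q, IsLatin f ∧ graph f = C := by
  obtain ⟨hcard, hdist⟩ := hC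
  rw [Nat.add_sub_cancel] at hcard
  have hd1 : ∀ x ∈ C, ∀ y ∈ C, ∀ i : Fin (n + 1), (∀ j, j ≠ i → x j = y j) → x = y := by
    intro x hx y hy i h
    by_contra hne
    have h1 := hdist x hx y hy hne
    have h2 : hammingDist x y ≤ 1 := by
      rw [hammingDist, Finset.card_le_one]
      intro a ha b hb
      rw [mem_filter] at ha hb
      have e1 : a = i := by
        by_contra hc
        exact ha.2 (h a hc)
      have e2 : b = i := by
        by_contra hc
        exact hb.2 (h b hc)
      rw [e1, e2]
    omega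
  have hinj : Set.InjOn (fun x : Fin (n + 1) → Fin q => Fin.init x) C := by
    intro x hx y hy h
    refine hd1 x hx y hy (Fin.last n) fun j hj => ?_
    obtain ⟨k, rfl⟩ := Fin.exists_castSucc_eq.2 hj
    exact congrFun h k
  have himg : C.image (fun x : Fin (n + 1) → Fin q => Fin.init x) = univ := by
    apply Finset.eq_univ_of_card
    rw [card_image_of_injOn hinj, hcard]
    simp
  have hex : ∀ x : Fin n → Fin q, ∃ v : Fin q, (Fin.snoc x v : Fin (n + 1) → Fin q) ∈ C := by
    intro x
    have hx : x ∈ C.image (fun x : Fin (n + 1) → Fin q => Fin.init x) := by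
      rw [himg]; exact mem_univ _
    rw [mem_image] at hx
    obtain ⟨z, hz, rfl⟩ := hx
    exact ⟨z (Fin.last n), by rw [Fin.snoc_init_self]; exact hz⟩
  choose f hf using hex
  refine ⟨f, ?_, ?_⟩
  · intro x i a b hab
    simp only at hab
    have h1 := hd1 _ (hf (Function.update x i a)) _ (hf (Function.update x i b)) (Fin.castSucc i) (by
      intro j hj
      rcases Fin.eq_castSucc_or_eq_last j with ⟨k, rfl⟩ | rfl
      · rw [Fin.snoc_castSucc, Fin.snoc_castSucc]
        have hk : k ≠ i := fun h => hj (by rw [h])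
        rw [Function.update_of_ne hk, Function.update_of_ne hk]
      · rw [Fin.snoc_last, Fin.snoc_last, hab])
    have h2 := congrFun (Fin.snoc_inj.1 h1).1 i
    rwa [Function.update_self, Function.update_self] at h2
  · have hsub : graph f ⊆ C := by
      intro u hu
      rw [graph, mem_image] at hu
      obtain ⟨x, -, rfl⟩ := hu
      exact hf x
    refine Finset.eq_of_subset_of_card_le hsub ?_
    rw [card_graph, hcard]

theorem N_eq (q n : ℕ) : N q (n + 1) = (Lat q n).card := by
  have h1 : Function.Bijective (fun f : {f // f ∈ Lat q n} =>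
      (⟨graph f.1, graph_isMDS (mem_Lat.1 f.2)⟩ :
        {C : Finset (Fin (n + 1) → Fin q) // IsMDS q (n + 1) C})) := by
    constructor
    · rintro ⟨f, hf⟩ ⟨g, hg⟩ h
      rw [Subtype.mk.injEq] at h
      rw [Subtype.mk.injEq]
      funext x
      have h2 : (Fin.snoc x (f x) : Fin (n + 1) → Fin q) ∈ graph g := by
        rw [← h, mem_graph]
      rw [mem_graph] at h2
      exact h2.symm
    · rintro ⟨C, hC⟩
      obtain ⟨f, hf, hg⟩ := exists_graph hC
      exact ⟨⟨f, mem_Lat.2 hf⟩, Subtype.ext hg⟩
  rw [N, ← Nat.card_congr (Equiv.ofBijective _ h1), Nat.card_eq_fintype_card, Fintype.card_coe]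

end Codes

section Lower

/-- the Latin hypercubes of even order with a parameter `g` -/
theorem even_lower (m n : ℕ) (hm : 0 < m) : 2 ^ (m ^ n) ≤ (Lat (2 * m) n).card := by
  have : NeZero m := ⟨hm.ne'⟩
  have hcard : Fintype.card (Fin (2 * m)) = Fintype.card (ZMod 2 × ZMod m) := by
    rw [Fintype.card_fin, Fintype.card_prod, ZMod.card, ZMod.card]
  let E : Fin (2 * m) ≃ ZMod 2 × ZMod m := Fintype.equivOfCardEq hcard
  let F : ((Fin n → ZMod m) → ZMod 2) → (Fin n → Fin (2 * m)) → Fin (2 * m) := fun g x =>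
    E.symm (∑ i, (E (x i)).1 + g (fun i => (E (x i)).2), ∑ i, (E (x i)).2)
  have h1 : ∀ g, F g ∈ Lat (2 * m) n := by
    intro g
    rw [mem_Lat]
    intro x i a b hab
    simp only [F, EmbeddingLike.apply_eq_iff_eq, Prod.mk.injEq] at hab
    obtain ⟨h2, h3⟩ := hab
    have e1 : ∀ (G : Fin (2 * m) → ZMod m) (c : Fin (2 * m)),
        ∑ j, G (Function.update x i c j) = G c + ∑ j ∈ univ.erase i, G (x j) := by
      intro G c
      rw [← Finset.add_sum_erase univ _ (mem_univ i), Function.update_self]
      congr 1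
      exact Finset.sum_congr rfl fun j hj => by rw [Function.update_of_ne (ne_of_mem_erase hj)]
    have e2 : ∀ (G : Fin (2 * m) → ZMod 2) (c : Fin (2 * m)),
        ∑ j, G (Function.update x i c j) = G c + ∑ j ∈ univ.erase i, G (x j) := by
      intro G c
      rw [← Finset.add_sum_erase univ _ (mem_univ i), Function.update_self]
      congr 1
      exact Finset.sum_congr rfl fun j hj => by rw [Function.update_of_ne (ne_of_mem_erase hj)]
    rw [e1 (fun z => (E z).2), e1 (fun z => (E z).2)] at h3
    have h4 := add_right_cancel h3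
    have h5 : (fun j => (E (Function.update x i a j)).2) =
        fun j => (E (Function.update x i b j)).2 := by
      funext j
      by_cases hj : j = i
      · subst hj
        rw [Function.update_self, Function.update_self, h4]
      · rw [Function.update_of_ne hj, Function.update_of_ne hj]
    rw [h5, e2 (fun z => (E z).1), e2 (fun z => (E z).1)] at h2
    have h6 := add_right_cancel (add_right_cancel h2)
    exact E.injective (Prod.ext h6 h4)
  have h2 : Function.Injective F := by
    intro g g' h
    funext b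
    have h3 := congrFun h fun i => E.symm (0, b i)
    simp only [F, EmbeddingLike.apply_eq_iff_eq, Prod.mk.injEq, Equiv.apply_symm_apply] at h3
    exact add_left_cancel h3.1
  calc 2 ^ (m ^ n) = (univ : Finset ((Fin n → ZMod m) → ZMod 2)).card := by
        rw [card_univ, Fintype.card_fun, ZMod.card, Fintype.card_fun, ZMod.card, Fintype.card_fin]
    _ = (univ.image F).card := (card_image_of_injective _ h2).symm
    _ ≤ (Lat (2 * m) n).card := by
        refine card_le_card fun f hf => ?_
        rw [mem_image] at hf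
        obtain ⟨g, -, rfl⟩ := hf
        exact h1 g

theorem Lat_pos (q n : ℕ) (hq : 1 ≤ q) : 1 ≤ (Lat q n).card := by
  have : NeZero q := ⟨by omega⟩
  have hcard : Fintype.card (Fin q) = Fintype.card (ZMod q) := by
    rw [Fintype.card_fin, ZMod.card]
  let E : Fin q ≃ ZMod q := Fintype.equivOfCardEq hcard
  rw [Nat.succ_le_iff, Finset.card_pos]
  refine ⟨fun x => E.symm (∑ i, E (x i)), mem_Lat.2 ?_⟩
  intro x i a b hab
  simp only [EmbeddingLike.apply_eq_iff_eq] at hab
  have e1 : ∀ c : Fin q, ∑ j, E (Function.update x i c j) = E c + ∑ j ∈ univ.erase i, E (x j) := by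
    intro c
    rw [← Finset.add_sum_erase univ _ (mem_univ i), Function.update_self]
    congr 1
    exact Finset.sum_congr rfl fun j hj => by rw [Function.update_of_ne (ne_of_mem_erase hj)]
  rw [e1, e1] at hab
  exact E.injective (add_right_cancel hab)

end Lower

/-- the upper bound for the number of codes -/
theorem logb_N_le (q n : ℕ) (hq : 1 ≤ q) :
    Real.logb 2 (N q (n + 1)) ≤ (q - 1) * ((q : ℝ) / 2) ^ n := by
  have h1 := card_Lat_le q n
  have h2 : (0 : ℝ) < (N q (n + 1) : ℝ) := by
    rw [N_eq]; exact_mod_cast Lat_pos q n hq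
  rw [← N_eq] at h1
  have h3 := Real.log_le_log h2 h1
  rw [Real.log_exp] at h3
  rw [Real.logb, div_le_iff₀ (Real.log_pos (by norm_num))]
  linarith

/-- the lower bound for even order -/
theorem le_logb_N (q n : ℕ) (hq : 2 ≤ q) (he : Even q) :
    ((q : ℝ) / 2) ^ n ≤ Real.logb 2 (N q (n + 1)) := by
  obtain ⟨m, rfl⟩ := he
  have hm : 0 < m := by omega
  have h1 := even_lower m n hm
  rw [two_mul, ← N_eq] at h1
  have h2 : ((2 : ℝ)) ^ ((((m + m : ℕ) : ℝ) / 2) ^ n) ≤ (N (m + m) (n + 1) : ℝ) := by
    have e : (((m + m : ℕ) : ℝ) / 2) ^ n = ((m ^ n : ℕ) : ℝ) := by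
      push_cast
      congr 1
      ring
    rw [e, Real.rpow_natCast]
    exact_mod_cast h1
  rw [Real.le_logb_iff_rpow_le (by norm_num)]
  · exact h2
  · exact lt_of_lt_of_le (by positivity) h2

/-- **Main theorem.** The upper bound for all `q`, the lower bound for even `q`, the value of the
limit for even `q`, and the resulting upper bound for the growth for every `q`. -/
theorem result :
    (∀ q n : ℕ, 2 ≤ q → 2 ≤ n → Real.logb 2 (N q n) ≤ (q - 1) * ((q : ℝ) / 2) ^ (n - 1)) ∧
    (∀ q n : ℕ, 2 ≤ q → Even q → 2 ≤ n → ((q : ℝ) / 2) ^ (n - 1) ≤ Real.logb 2 (N q n)) ∧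
    (∀ q : ℕ, 2 ≤ q → Even q →
      Tendsto (fun n : ℕ => Real.logb 2 (Real.logb 2 (N q n)) / n) atTop
        (𝓝 (Real.logb 2 ((q : ℝ) / 2)))) ∧
    (∀ q : ℕ, 3 ≤ q → ∀ δ : ℝ, 0 < δ → ∀ᶠ n : ℕ in atTop,
      Real.logb 2 (Real.logb 2 (N q n)) / n ≤ Real.logb 2 ((q : ℝ) / 2) + δ) := by
  have hup : ∀ q n : ℕ, 2 ≤ q → 2 ≤ n →
      Real.logb 2 (N q n) ≤ (q - 1) * ((q : ℝ) / 2) ^ (n - 1) := by
    intro q n hq hn
    obtain ⟨k, rfl⟩ := Nat.exists_eq_add_of_le' (show 1 ≤ n by omega)
    exact logb_N_le q k (by omega)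
  have hlow : ∀ q n : ℕ, 2 ≤ q → Even q → 2 ≤ n →
      ((q : ℝ) / 2) ^ (n - 1) ≤ Real.logb 2 (N q n) := by
    intro q n hq he hn
    obtain ⟨k, rfl⟩ := Nat.exists_eq_add_of_le' (show 1 ≤ n by omega)
    exact le_logb_N q k hq he
  -- the logarithm of the upper bound
  have hlog : ∀ q n : ℕ, 2 ≤ q → 2 ≤ n → Real.logb 2 (Real.logb 2 (N q n)) ≤
      Real.logb 2 (q - 1) + (n - 1) * Real.logb 2 ((q : ℝ) / 2) := by
    intro q n hq hn
    have hq' : (2 : ℝ) ≤ q := by exact_mod_cast hq
    have hn' : (2 : ℝ) ≤ n := by exact_mod_cast hn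
    have hc : 0 ≤ Real.logb 2 ((q : ℝ) / 2) := Real.logb_nonneg (by norm_num) (by linarith)
    have hd : 0 ≤ Real.logb 2 ((q : ℝ) - 1) := Real.logb_nonneg (by norm_num) (by linarith)
    have e1 : Real.logb 2 ((q - 1) * ((q : ℝ) / 2) ^ (n - 1)) =
        Real.logb 2 (q - 1) + (n - 1) * Real.logb 2 ((q : ℝ) / 2) := by
      rw [Real.logb_mul (by linarith) (by positivity), Real.logb_pow]
      congr 2
      push_cast [Nat.cast_sub (show 1 ≤ n by omega)]
      ring
    rcases le_or_gt (Real.logb 2 (N q n)) 0 with h | h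
    · have h0 : 0 ≤ Real.logb 2 (N q n) := by
        obtain ⟨k, rfl⟩ := Nat.exists_eq_add_of_le' (show 1 ≤ n by omega)
        refine Real.logb_nonneg (by norm_num) ?_
        rw [N_eq]
        exact_mod_cast Lat_pos q k (by omega)
      rw [le_antisymm h h0, Real.logb_zero]
      have : 0 ≤ ((n : ℝ) - 1) * Real.logb 2 ((q : ℝ) / 2) := mul_nonneg (by linarith) hc
      linarith
    · rw [← e1]
      exact Real.logb_le_logb_of_le (by norm_num) h (hup q n hq hn)
  have ht : ∀ c : ℝ, Tendsto (fun n : ℕ => c / (n : ℝ)) atTop (𝓝 0) :=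
    fun c => tendsto_const_div_atTop_nhds_zero_nat c
  refine ⟨hup, hlow, ?_, ?_⟩
  · intro q hq he
    set c := Real.logb 2 ((q : ℝ) / 2) with hc
    have h1 : Tendsto (fun n : ℕ => c - c / n) atTop (𝓝 c) := by
      have := (tendsto_const_nhds (x := c)).sub (ht c)
      rwa [sub_zero] at this
    have h2 : Tendsto (fun n : ℕ => c + (Real.logb 2 (q - 1) - c) / n) atTop (𝓝 c) := by
      have := (tendsto_const_nhds (x := c)).add (ht (Real.logb 2 (q - 1) - c))
      rwa [add_zero] at this
    refine tendsto_of_tendsto_of_tendsto_of_le_of_le' h1 h2 ?_ ?_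
    · filter_upwards [eventually_ge_atTop 2] with n hn
      have hn' : (0 : ℝ) < n := by
        have : (2 : ℝ) ≤ n := by exact_mod_cast hn
        linarith
      have hq' : (0 : ℝ) < q := by exact_mod_cast (show 0 < q by omega)
      rw [le_div_iff₀ hn']
      have h3 := Real.logb_le_logb_of_le (b := 2) (by norm_num) (by positivity) (hlow q n hq he hn)
      rw [Real.logb_pow, ← hc] at h3
      push_cast [Nat.cast_sub (show 1 ≤ n by omega)] at h3
      refine le_trans (le_of_eq ?_) h3
      field_simp
    · filter_upwards [eventually_ge_atTop 2] with n hn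
      have hn' : (0 : ℝ) < n := by
        have : (2 : ℝ) ≤ n := by exact_mod_cast hn
        linarith
      rw [div_le_iff₀ hn']
      refine (hlog q n hq hn).trans (le_of_eq ?_)
      rw [← hc]
      field_simp
      ring
  · intro q hq δ hδ
    set c := Real.logb 2 ((q : ℝ) / 2) with hc
    have h2 : Tendsto (fun n : ℕ => c + (Real.logb 2 (q - 1) - c) / n) atTop (𝓝 c) := by
      have := (tendsto_const_nhds (x := c)).add (ht (Real.logb 2 (q - 1) - c))
      rwa [add_zero] at this
    filter_upwards [eventually_ge_atTop 2, h2.eventually (ge_mem_nhds (show c < c + δ by linarith))]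
      with n hn h3
    refine le_trans ?_ h3
    have hn' : (0 : ℝ) < n := by
      have : (2 : ℝ) ≤ n := by exact_mod_cast hn
      linarith
    rw [div_le_iff₀ hn']
    refine (hlog q n (by omega) hn).trans (le_of_eq ?_)
    rw [← hc]
    field_simp
    ring

end Pool.Agent.Results.MP_85f59e_co.EvenOrder
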